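import Pool.Agent.Y83.NP.Tz

/-!
# Trapezoidal pairs whose corner has no common divisor besides `a`

Conditions 1, 4, 5 of the problem with `gcd (m, n) = a` force the bracket to vanish.
-/

set_option autoImplicit false

namespace Pool.Agent.Results.MP_2d59ee_ag.CoprimeCorner

open MvPolynomial

/-- Let `a, b ≥ 2` be coprime and let `m, n > 0` have the greatest common divisor `a`. If the Newton
polygons of `F` and `G` are the trapezoids `T_{m,n}` and `T_{bm/a,bn/a}` and the bracket `[F, G]` is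
constant, then `[F, G] = 0`. (So the answer to the problem is affirmative for all parameters with
`gcd (m, n) = a`, and conditions 2 and 3 are not needed there.) -/
theorem result (a b m n : ℕ) (hm : 0 < m) (hn : 0 < n) (hab : Nat.gcd a b = 1) (ha : 2 ≤ a)
    (hb : 2 ≤ b) (hgcd : Nat.gcd m n = a)
    (F G : MvPolynomial (Fin 2) ℂ)
    (h1 : convexHull ℝ (insert ((0:ℝ), (0:ℝ))
        ((fun d : Fin 2 →₀ ℕ => ((d 0 : ℝ), (d 1 : ℝ))) '' (↑F.support : Set (Fin 2 →₀ ℕ))))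
        = {p : ℝ × ℝ | 0 ≤ p.2 ∧ p.2 ≤ (n : ℝ) ∧ 0 ≤ p.1 ∧ p.1 ≤ (m : ℝ) + (n : ℝ) - p.2})
    (h4 : convexHull ℝ (insert ((0:ℝ), (0:ℝ))
        ((fun d : Fin 2 →₀ ℕ => ((d 0 : ℝ), (d 1 : ℝ))) '' (↑G.support : Set (Fin 2 →₀ ℕ))))
        = {p : ℝ × ℝ | 0 ≤ p.2 ∧ p.2 ≤ ((b * n / a : ℕ) : ℝ) ∧ 0 ≤ p.1 ∧
            p.1 ≤ ((b * m / a : ℕ) : ℝ) + ((b * n / a : ℕ) : ℝ) - p.2})
    (h5 : ∃ c : ℂ, pderiv 0 F * pderiv 1 G - pderiv 1 F * pderiv 0 G = C c) :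
    pderiv 0 F * pderiv 1 G - pderiv 1 F * pderiv 0 G = 0 := by
  obtain ⟨c, hc⟩ := h5
  by_cases hc0 : c = 0
  · rw [hc, hc0, map_zero]
  exfalso
  obtain ⟨p, hp'⟩ : a ∣ m := hgcd ▸ Nat.gcd_dvd_left m n
  obtain ⟨q, hq'⟩ : a ∣ n := hgcd ▸ Nat.gcd_dvd_right m n
  subst hp' hq'
  have ha0 : 0 < a := by omega
  have hp : 0 < p := Nat.pos_of_ne_zero (by rintro rfl; simp at hm)
  have hq : 0 < q := Nat.pos_of_ne_zero (by rintro rfl; simp at hn)
  have hpq : Nat.Coprime p q := by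
    rw [Nat.gcd_mul_left] at hgcd
    have : a * Nat.gcd p q = a * 1 := by rw [hgcd, mul_one]
    exact Nat.eq_of_mul_eq_mul_left ha0 this
  have e1 : b * (a * q) / a = b * q := by
    have : b * (a * q) = b * q * a := by ring
    rw [this, Nat.mul_div_cancel _ ha0]
  have e2 : b * (a * p) / a = b * p := by
    have : b * (a * p) = b * p * a := by ring
    rw [this, Nat.mul_div_cancel _ ha0]
  rw [e1, e2] at h4
  obtain ⟨f1, f2⟩ := Pool.Agent.TH207.Tz.hull (Nat.mul_pos ha0 hq) h1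
  obtain ⟨g1, g2⟩ := Pool.Agent.TH207.Tz.hull (Nat.mul_pos (by omega) hq) h4
  exact Pool.Agent.Y83.NP.tz_coprime ha hb hab hp hq hc0 hc f1 f2 g1 g2 hpq

end Pool.Agent.Results.MP_2d59ee_ag.CoprimeCorner
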