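import Pool.Agent.Y235.TZ.T1

/-!
# Trapezoidal pairs one of whose components is an elliptic function over the field of the other

Conditions 1, 4, 5 of the problem force the bracket to vanish as soon as one component lies in the
field obtained from the field of rational functions of the other by adjoining the coordinates of a
point of an elliptic curve defined over that field.
-/

set_option autoImplicit false

namespace Pool.Agent.Results.MP_2d59ee_ag.EllipticTrapezoid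

open MvPolynomial

/-- Let `a, b ≥ 2` be coprime, let `a` divide `m, n > 0` and let `F, G` be complex polynomials whose
Newton polygons are the trapezoids `T_{m,n}` and `T_{bm/a,bn/a}` and whose bracket is constant. Let
`P, Q` be `F, G` in one of the two orders and suppose that the field `ℂ(P)(X, Y)` contains `Q`, where
`X, Y` are rational functions of `x, y` with `Y ^ 2 = X ^ 3 + α X + β`, `α, β ∈ ℂ(P)`,
`4 α ^ 3 + 27 β ^ 2 ≠ 0`. If the degree of `P` is larger than that of `Q`, or the number among `a, b`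
belonging to `P` is not `2, 3, 4, 6`, or all polynomials `P - c` are irreducible, then
`[F, G] = 0`. -/
theorem result (a b m n : ℕ) (hm : 0 < m) (hn : 0 < n) (ham : a ∣ m) (han : a ∣ n)
    (hab : Nat.gcd a b = 1) (ha : 2 ≤ a) (hb : 2 ≤ b)
    (F G : MvPolynomial (Fin 2) ℂ)
    (h1 : convexHull ℝ (insert ((0:ℝ), (0:ℝ))
        ((fun d : Fin 2 →₀ ℕ => ((d 0 : ℝ), (d 1 : ℝ))) '' (↑F.support : Set (Fin 2 →₀ ℕ))))
        = {p : ℝ × ℝ | 0 ≤ p.2 ∧ p.2 ≤ (n : ℝ) ∧ 0 ≤ p.1 ∧ p.1 ≤ (m : ℝ) + (n : ℝ) - p.2})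
    (h4 : convexHull ℝ (insert ((0:ℝ), (0:ℝ))
        ((fun d : Fin 2 →₀ ℕ => ((d 0 : ℝ), (d 1 : ℝ))) '' (↑G.support : Set (Fin 2 →₀ ℕ))))
        = {p : ℝ × ℝ | 0 ≤ p.2 ∧ p.2 ≤ ((b * n / a : ℕ) : ℝ) ∧ 0 ≤ p.1 ∧
            p.1 ≤ ((b * m / a : ℕ) : ℝ) + ((b * n / a : ℕ) : ℝ) - p.2})
    (h5 : ∃ c : ℂ, pderiv 0 F * pderiv 1 G - pderiv 1 F * pderiv 0 G = C c)
    (P Q : MvPolynomial (Fin 2) ℂ) (r s : ℕ)
    (hPQ : (P = F ∧ Q = G ∧ r = a ∧ s = b) ∨ (P = G ∧ Q = F ∧ r = b ∧ s = a))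
    (hr : s < r ∨ (r ≠ 2 ∧ r ≠ 3 ∧ r ≠ 4 ∧ r ≠ 6) ∨ ∀ c : ℂ, Irreducible (P - C c))
    (α β X Y : FractionRing (MvPolynomial (Fin 2) ℂ))
    (hα : α ∈ IntermediateField.adjoin ℂ
      {algebraMap (MvPolynomial (Fin 2) ℂ) (FractionRing (MvPolynomial (Fin 2) ℂ)) P})
    (hβ : β ∈ IntermediateField.adjoin ℂ
      {algebraMap (MvPolynomial (Fin 2) ℂ) (FractionRing (MvPolynomial (Fin 2) ℂ)) P})
    (hdisc : 4 * α ^ 3 + 27 * β ^ 2 ≠ 0) (hXY : Y ^ 2 = X ^ 3 + α * X + β)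
    (hQ : algebraMap (MvPolynomial (Fin 2) ℂ) (FractionRing (MvPolynomial (Fin 2) ℂ)) Q ∈
      IntermediateField.adjoin ℂ
        {algebraMap (MvPolynomial (Fin 2) ℂ) (FractionRing (MvPolynomial (Fin 2) ℂ)) P, X, Y}) :
    pderiv 0 F * pderiv 1 G - pderiv 1 F * pderiv 0 G = 0 := by
  obtain ⟨c, hc⟩ := h5
  by_cases hc0 : c = 0
  · rw [hc, hc0, map_zero]
  exfalso
  obtain ⟨p, rfl⟩ := ham
  obtain ⟨q, rfl⟩ := han
  have ha0 : 0 < a := by omega
  have hp : 0 < p := Nat.pos_of_ne_zero (by rintro rfl; simp at hm)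
  have hq : 0 < q := Nat.pos_of_ne_zero (by rintro rfl; simp at hn)
  have e1 : b * (a * q) / a = b * q := by
    have : b * (a * q) = b * q * a := by ring
    rw [this, Nat.mul_div_cancel _ ha0]
  have e2 : b * (a * p) / a = b * p := by
    have : b * (a * p) = b * p * a := by ring
    rw [this, Nat.mul_div_cancel _ ha0]
  rw [e1, e2] at h4
  have dF : F.totalDegree = a * (p + q) := by
    rw [Pool.Agent.Y235.TZ.hull_td (Nat.mul_pos ha0 hq) h1]; ring
  have dG : G.totalDegree = b * (p + q) := by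
    rw [Pool.Agent.Y235.TZ.hull_td (Nat.mul_pos (by omega) hq) h4]; ring
  have hs0 : 0 < p + q := by omega
  -- degrees of `P` and `Q`
  have key : ∃ r s : ℕ, 2 ≤ r ∧ 2 ≤ s ∧ Nat.gcd r s = 1 ∧ P.totalDegree = r * (p + q) ∧
      Q.totalDegree = s * (p + q) ∧
      (s < r ∨ (r ≠ 2 ∧ r ≠ 3 ∧ r ≠ 4 ∧ r ≠ 6) ∨ ∀ c : ℂ, Irreducible (P - C c)) := by
    rcases hPQ with ⟨rfl, rfl, rfl, rfl⟩ | ⟨rfl, rfl, rfl, rfl⟩
    · exact ⟨r, s, ha, hb, hab, dF, dG, hr⟩
    · exact ⟨r, s, hb, ha, by rw [Nat.gcd_comm]; exact hab, dG, dF, hr⟩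
  clear hr
  obtain ⟨r, s, hr2, hs2, hrs, dP, dQ, hr⟩ := key
  have hJ : IsUnit (Matrix.det (Pool.Agent.H922R2.jac ![P, Q])) := by
    have hb1 : pderiv 0 P * pderiv 1 Q - pderiv 1 P * pderiv 0 Q = C c ∨
        pderiv 0 P * pderiv 1 Q - pderiv 1 P * pderiv 0 Q = C (-c) := by
      rcases hPQ with ⟨rfl, rfl, -, -⟩ | ⟨rfl, rfl, -, -⟩
      · left; exact hc
      · right
        rw [map_neg, ← hc]; ring
    rw [Matrix.det_fin_two]
    have h6 : (Pool.Agent.H922R2.jac ![P, Q]) 0 0 * (Pool.Agent.H922R2.jac ![P, Q]) 1 1 -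
        (Pool.Agent.H922R2.jac ![P, Q]) 0 1 * (Pool.Agent.H922R2.jac ![P, Q]) 1 0 =
        pderiv 0 P * pderiv 1 Q - pderiv 1 P * pderiv 0 Q := by
      simp only [Pool.Agent.H922R2.jac, Matrix.of_apply, Matrix.cons_val_zero,
        Matrix.cons_val_one]
    rw [h6]
    rcases hb1 with h | h
    · rw [h]; exact (isUnit_iff_ne_zero.2 hc0).map C
    · rw [h]; exact (isUnit_iff_ne_zero.2 (neg_ne_zero.2 hc0)).map C
  have H : Pool.Agent.H938R2.EL2.UU ![P, Q] ∨ ∀ c : ℂ, Irreducible ((![P, Q] : Fin 2 → _) 0 - C c) := by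
    rcases hr with h | ⟨h2, h3, h4, h6⟩ | h
    · left
      apply Pool.Agent.Y235.TZ.UU_ge
      · rw [dP]; exact Nat.mul_pos (by omega) hs0
      · rw [dP, dQ]; exact Nat.mul_le_mul_right _ h.le
    · left
      refine Pool.Agent.Y235.TZ.UU_as hr2 hrs hs0 dP dQ ?_ ?_
      · intro hd
        have hle := Nat.le_of_dvd (by norm_num) hd
        interval_cases r <;> omega
      · intro hd
        have hle := Nat.le_of_dvd (by norm_num) hd
        interval_cases r <;> omega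
    · right
      intro c
      simpa using h c
  exact Pool.Agent.Y235.EM.EM_false ![P, Q] hJ H α β X Y hα hβ hdisc hXY hQ

end Pool.Agent.Results.MP_2d59ee_ag.EllipticTrapezoid
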