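import Pool.Agent.Y83.NP.Tz

/-!
# Trapezoidal pairs with a steep corner

Conditions 1, 4, 5 of the problem force the bracket to vanish if `m` does not divide `n` and
`n > m * (1 + 2 ^ (m / a - 3))`.
-/

set_option autoImplicit false

namespace Pool.Agent.Results.MP_2d59ee_ag.SteepCorner

open MvPolynomial

/-- Let `a, b ≥ 2` be coprime and let `0 < m < n` be multiples of `a`, where `m` does not divide `n` and
`n > m * (1 + 2 ^ (m / a - 3))` (for `m < 3 * a` the last inequality is not needed). If the Newton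
polygons of `F` and `G` are the trapezoids `T_{m,n}` and `T_{bm/a,bn/a}` and the bracket `[F, G]` is
constant, then `[F, G] = 0`. (So for given `a` and `m` the answer to the problem is affirmative for
all but finitely many of the `n` that are no multiples of `m`, and conditions 2 and 3 are not
needed there.) -/
theorem result (a b m n : ℕ) (hm : 0 < m) (hmn : m < n) (ham : a ∣ m) (han : a ∣ n)
    (hab : Nat.gcd a b = 1) (ha : 2 ≤ a) (hb : 2 ≤ b) (hdvd : ¬ m ∣ n)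
    (hbig : m < 3 * a ∨ m * (1 + 2 ^ (m / a - 3)) < n)
    (F G : MvPolynomial (Fin 2) ℂ)
    (h1 : convexHull ℝ (insert ((0:ℝ), (0:ℝ))
        ((fun d : Fin 2 →₀ ℕ => ((d 0 : ℝ), (d 1 : ℝ))) '' (↑F.support : Set (Fin 2 →₀ ℕ))))
        = {p : ℝ × ℝ | 0 ≤ p.2 ∧ p.2 ≤ (n : ℝ) ∧ 0 ≤ p.1 ∧ p.1 ≤ (m : ℝ) + (n : ℝ) - p.2})
    (h4 : convexHull ℝ (insert ((0:ℝ), (0:ℝ))
        ((fun d : Fin 2 →₀ ℕ => ((d 0 : ℝ), (d 1 : ℝ))) '' (↑G.support : Set (Fin 2 →₀ ℕ))))
        = {p : ℝ × ℝ | 0 ≤ p.2 ∧ p.2 ≤ ((b * n / a : ℕ) : ℝ) ∧ 0 ≤ p.1 ∧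
            p.1 ≤ ((b * m / a : ℕ) : ℝ) + ((b * n / a : ℕ) : ℝ) - p.2})
    (h5 : ∃ c : ℂ, pderiv 0 F * pderiv 1 G - pderiv 1 F * pderiv 0 G = C c) :
    pderiv 0 F * pderiv 1 G - pderiv 1 F * pderiv 0 G = 0 := by
  obtain ⟨c, hc⟩ := h5
  by_cases hc0 : c = 0
  · rw [hc, hc0, map_zero]
  exfalso
  obtain ⟨p, rfl⟩ := ham
  obtain ⟨q, rfl⟩ := han
  have ha0 : 0 < a := by omega
  have hp : 0 < p := Nat.pos_of_ne_zero (by rintro rfl; simp at hm)
  have hpq : p < q := Nat.lt_of_mul_lt_mul_left hmn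
  have e1 : b * (a * q) / a = b * q := by
    have : b * (a * q) = b * q * a := by ring
    rw [this, Nat.mul_div_cancel _ ha0]
  have e2 : b * (a * p) / a = b * p := by
    have : b * (a * p) = b * p * a := by ring
    rw [this, Nat.mul_div_cancel _ ha0]
  rw [e1, e2] at h4
  obtain ⟨f1, f2⟩ := Pool.Agent.TH207.Tz.hull (Nat.mul_pos ha0 (by omega)) h1
  obtain ⟨g1, g2⟩ := Pool.Agent.TH207.Tz.hull (Nat.mul_pos (by omega) (by omega)) h4
  obtain ⟨k1, k2⟩ := Pool.Agent.Y83.NP.tz_bound ha hb hab hp hpq hc0 hc f1 f2 g1 g2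
  rcases k2 with k2 | k2
  · exact hdvd (Nat.mul_dvd_mul_left a k2)
  · rcases hbig with h6 | h6
    · have h7 : a * 3 ≤ a * p := Nat.mul_le_mul_left a k1
      omega
    · rw [Nat.mul_div_cancel_left _ ha0] at h6
      have h7 : a * q ≤ a * (p * (1 + 2 ^ (p - 3))) := Nat.mul_le_mul_left a k2
      rw [← mul_assoc] at h7
      omega

end Pool.Agent.Results.MP_2d59ee_ag.SteepCorner
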